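import Pool.Agent.H32.QC.TargetsL

/-!
MP_63b6b1_nt, row LREA: the real field.
-/

set_option autoImplicit false

open NumberField IsDedekindDomain Pool.Agent.H32.QC

namespace Pool.Agent.H69.QCL

theorem rea_sol (a b : ℝ) : Sol a b ↔ 0 ≤ a ∨ 0 ≤ b := by
  constructor
  · rintro ⟨x, y, z, h, e⟩
    by_contra hcon
    push Not at hcon
    obtain ⟨ha, hb⟩ := hcon
    have hx : a * x ^ 2 ≤ 0 := mul_nonpos_of_nonpos_of_nonneg ha.le (sq_nonneg x)
    have hy : b * y ^ 2 ≤ 0 := mul_nonpos_of_nonpos_of_nonneg hb.le (sq_nonneg y)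
    have hz := sq_nonneg z
    have h1 : a * x ^ 2 = 0 := by linarith
    have h2 : b * y ^ 2 = 0 := by linarith
    have h3 : z ^ 2 = 0 := by linarith
    have h4 : x = 0 := by
      rcases mul_eq_zero.1 h1 with h5 | h5
      · exact absurd h5 ha.ne
      · exact pow_eq_zero_iff (two_ne_zero) |>.1 h5
    have h5 : y = 0 := by
      rcases mul_eq_zero.1 h2 with h5 | h5
      · exact absurd h5 hb.ne
      · exact pow_eq_zero_iff (two_ne_zero) |>.1 h5
    have h6 : z = 0 := pow_eq_zero_iff (two_ne_zero) |>.1 h3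
    rcases h with h | h | h
    · exact h h4
    · exact h h5
    · exact h h6
  · rintro (h | h)
    · exact ⟨1, 0, Real.sqrt a, Or.inl one_ne_zero, by rw [Real.sq_sqrt h]; ring⟩
    · exact ⟨0, 1, Real.sqrt b, Or.inr (Or.inl one_ne_zero), by rw [Real.sq_sqrt h]; ring⟩

/-- The positive real numbers. -/
def rea_pos : Subgroup ℝˣ where
  carrier := {x | 0 < (x : ℝ)}
  one_mem' := by simp
  mul_mem' := by
    intro x y hx hy
    show 0 < ((x * y : ℝˣ) : ℝ)
    rw [Units.val_mul]
    exact mul_pos hx hy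
  inv_mem' := by
    intro x hx
    show 0 < ((x⁻¹ : ℝˣ) : ℝ)
    rw [Units.val_inv_eq_inv_val]
    exact inv_pos.2 hx

theorem rea_mem (x : ℝˣ) : x ∈ rea_pos ↔ 0 < (x : ℝ) := Iff.rfl

theorem rea_index : rea_pos.index = 2 := by
  rw [Subgroup.index_eq_two_iff]
  refine ⟨-1, fun b => ?_⟩
  rw [rea_mem, rea_mem]
  have h0 : (b : ℝ) ≠ 0 := b.ne_zero
  have h1 : ((b * -1 : ℝˣ) : ℝ) = -(b : ℝ) := by simp
  rw [h1]
  rcases lt_or_gt_of_ne h0 with h | h
  · exact Or.inl ⟨by linarith, by linarith⟩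
  · exact Or.inr ⟨by linarith, by linarith⟩

theorem pf_REA : T_REA := by
  refine ⟨?_, ?_, ?_⟩
  · intro t ht0 ht
    refine ⟨rea_pos, rea_index, ?_⟩
    intro b
    rw [rea_mem, rea_sol]
    have h1 : ¬ 0 ≤ t := by
      intro h
      exact ht ⟨Real.sqrt t, (Real.mul_self_sqrt h).symm⟩
    constructor
    · intro h
      exact Or.inr h.le
    · rintro (h | h)
      · exact absurd h h1
      · exact lt_of_le_of_ne h (Ne.symm b.ne_zero)
  · unfold nsq
    have h : (powMonoidHom 2 : ℝˣ →* ℝˣ).range = rea_pos := by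
      ext x
      rw [MonoidHom.mem_range, rea_mem]
      constructor
      · rintro ⟨y, rfl⟩
        have h0 : (y : ℝ) ≠ 0 := y.ne_zero
        rw [powMonoidHom_apply, Units.val_pow_eq_pow_val]
        positivity
      · intro h
        refine ⟨Units.mk0 (Real.sqrt x) (Real.sqrt_pos.2 h).ne', ?_⟩
        rw [powMonoidHom_apply]
        apply Units.ext
        rw [Units.val_pow_eq_pow_val, Units.val_mk0, Real.sq_sqrt h.le]
    rw [h]
    exact rea_index
  · intro a b ha hb
    have h1 : hil a b = -1 ↔ ¬ Sol a b := by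
      unfold hil
      split_ifs with h
      · simp [h]
      · simp [h]
    rw [h1, rea_sol, not_or, not_le, not_le]

end Pool.Agent.H69.QCL
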