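import Pool.Agent.H32.QC.TargetsL
import Pool.Agent.H69.QCL.REA

/-!
MP_63b6b1_nt, row LPND: common slots at all places.
-/

set_option autoImplicit false

open NumberField IsDedekindDomain Pool.Agent.H32.QC

namespace Pool.Agent.H69.QCL

theorem pnd_hil {L : Type*} [Field L] (a b : L) : hil a b = -1 ↔ ¬ Sol a b := by
  unfold hil
  split_ifs with h
  · simp [h]
  · simp [h]

theorem pnd_scale {L : Type*} [Field L] (a z r : L) (hr : r ≠ 0) (h : ¬ Sol a z) :
    ¬ Sol a (z * r ^ 2) := by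
  rintro ⟨x, y, w, h1, e⟩
  apply h
  refine ⟨x, r * y, w, ?_, ?_⟩
  · rcases h1 with h1 | h1 | h1
    · exact Or.inl h1
    · exact Or.inr (Or.inl (mul_ne_zero hr h1))
    · exact Or.inr (Or.inr h1)
  · rw [e]
    ring

theorem pf_PND (hNIV : T_NIV) (hNDG : T_NDG) (hOPV : T_OPV) (hAPR : T_APR) : T_PND := by
  intro K _ _ v t u ht hu hst hsu
  rcases v with v | φ
  · obtain ⟨h2, hNI, -⟩ := hNIV K v
    have ht' : ic v t ≠ 0 := (map_ne_zero (ic v)).2 ht
    have hu' : ic v u ≠ 0 := (map_ne_zero (ic v)).2 hu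
    obtain ⟨z0, hz0, e1, e2⟩ := hNDG _ h2 hNI (ic v t) (ic v u) ht' hu' hst hsu
    obtain ⟨e, he, hopen⟩ := hOPV K v z0 hz0
    obtain ⟨z, hz⟩ := (hAPR K v z0 e he).1
    obtain ⟨hne, r, hr⟩ := hopen (ic v z) hz
    have hz' : ic v z = z0 * r ^ 2 := by
      rw [div_eq_iff hz0] at hr
      rw [hr]
      ring
    have hr0 : r ≠ 0 := by
      rintro rfl
      apply hne
      rw [hz']
      ring
    rw [pnd_hil] at e1 e2
    refine ⟨z, (map_ne_zero (ic v)).1 hne, ?_, ?_⟩
    · show hil (ic v t) (ic v z) = -1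
      rw [pnd_hil, hz']
      exact pnd_scale _ _ _ hr0 e1
    · show hil (ic v u) (ic v z) = -1
      rw [pnd_hil, hz']
      exact pnd_scale _ _ _ hr0 e2
  · have key : ∀ x : K, ¬ sqAt (.inr φ : Pl K) x → hs (.inr φ : Pl K) x (-1) = -1 := by
      intro x hx
      show hil (φ x) (φ (-1)) = -1
      rw [pnd_hil, rea_sol, not_or, not_le, not_le]
      constructor
      · by_contra hcon
        push Not at hcon
        exact hx ⟨Real.sqrt (φ x), (Real.mul_self_sqrt hcon).symm⟩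
      · rw [map_neg, map_one]
        norm_num
    exact ⟨-1, neg_ne_zero.2 one_ne_zero, key t hst, key u hsu⟩

end Pool.Agent.H69.QCL
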