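import Pool.Agent.H32.QC.TargetsL

/-!
MP_63b6b1_nt, row LUNI: quaternary forms are universal.
-/

set_option autoImplicit false

open NumberField IsDedekindDomain Pool.Agent.H32.QC

namespace Pool.Agent.H69.QCL

theorem pf_UNI (hQUI : T_QUI) : T_UNI := by
  intro L _ h2 hNI hnsq n a hn ha x hx
  classical
  have hsnoc : ∀ i : Fin (n + 1), Fin.snoc (α := fun _ => L) a (-x) i ≠ 0 := by
    intro i
    refine Fin.lastCases ?_ (fun j => ?_) i
    · rw [Fin.snoc_last]
      exact neg_ne_zero.2 hx
    · rw [Fin.snoc_castSucc]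
      exact ha j
  obtain ⟨v, hv, hsum⟩ := hQUI L h2 hNI hnsq (n + 1) (Fin.snoc (α := fun _ => L) a (-x))
    (by omega) hsnoc
  rw [Fin.sum_univ_castSucc] at hsum
  simp only [Fin.snoc_castSucc, Fin.snoc_last] at hsum
  by_cases ht : v (Fin.last n) = 0
  · rw [ht] at hsum
    have h0 : ∑ i : Fin n, a i * v i.castSucc ^ 2 = 0 := by
      have : (0 : L) ^ 2 = 0 := by simp
      rw [this, mul_zero, add_zero] at hsum
      exact hsum
    have hne : ∃ i : Fin n, v i.castSucc ≠ 0 := by
      by_contra hcon
      push Not at hcon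
      apply hv
      funext i
      refine Fin.lastCases ?_ (fun j => ?_) i
      · exact ht
      · exact hcon j
    obtain ⟨i, hi⟩ := hne
    set y : Fin n → L := fun j => v j.castSucc with hy
    have hyi : y i ≠ 0 := hi
    set r : L := (x - a i) / (2 * a i * y i) with hr
    refine ⟨fun j => r * y j + if j = i then 1 else 0, ?_⟩
    have h3 : ∀ j, a j * (r * y j + if j = i then 1 else 0) ^ 2 =
        r ^ 2 * (a j * y j ^ 2) + (if j = i then (2 * r * (a j * y j) + a j) else 0) := by
      intro j
      split_ifs <;> ring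
    simp_rw [h3]
    rw [Finset.sum_add_distrib, ← Finset.mul_sum]
    have h4 : ∑ j, a j * y j ^ 2 = 0 := h0
    rw [h4, mul_zero, zero_add, Finset.sum_ite_eq' Finset.univ i]
    simp only [Finset.mem_univ, if_true]
    rw [hr]
    have hai := ha i
    field_simp
    ring
  · refine ⟨fun i => v i.castSucc / v (Fin.last n), ?_⟩
    have h3 : ∑ i : Fin n, a i * (v i.castSucc / v (Fin.last n)) ^ 2 =
        (∑ i : Fin n, a i * v i.castSucc ^ 2) / v (Fin.last n) ^ 2 := by
      rw [Finset.sum_div]
      apply Finset.sum_congr rfl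
      intro i _
      rw [div_pow, mul_div_assoc]
    rw [h3]
    have h4 : ∑ i : Fin n, a i * v i.castSucc ^ 2 = x * v (Fin.last n) ^ 2 := by
      linear_combination hsum
    rw [h4, mul_div_assoc, div_self (pow_ne_zero 2 ht), mul_one]

end Pool.Agent.H69.QCL
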